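import Mathlib

/-!
# MP_f6aa92_nt: consecutive differences of a gcd-driven recurrence

`a 0 = a 1 = a 2 = 1`, `a (n+3) = a (n+2) + gcd (a (n+2)) (a n)`.

We show that the consecutive differences are bounded: `a (n+1) ≤ a n + 89` for all `n`. In
particular the positive integer `90` (and every larger one) is not a difference, so the answer
to Q1 is no.

Idea: the next difference is `gcd (A, x + y)` where `A` is the last term and `x, y` are the last
two differences.  Starting from two consecutive differences `1, 1` we follow all sequences of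
differences which are compatible with the congruences satisfied by the current term
(a finite tree with 1649 nodes): after at most 36 steps two consecutive differences are
again `1, 1`, and all differences met on the way are at most `89`.
-/

namespace Pool.Agent.Results.MP_f6aa92_nt.BoundedDifferences

/-- The sequence of the problem. -/
def a : ℕ → ℕ
  | 0 => 1
  | 1 => 1
  | 2 => 1
  | (n + 3) => a (n + 2) + Nat.gcd (a (n + 2)) (a n)

/-- A pair `f = (h, c)` records `A ≡ c (mod h)`. Necessary condition for `gcd (A, s) = g`. -/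
def okFact (s g : ℕ) (f : ℕ × ℕ) : Bool :=
  Nat.gcd f.2 (Nat.gcd f.1 s) == Nat.gcd g (Nat.gcd f.1 s)

/-- The congruence learned from `gcd (A, s) = g`. -/
def newFact (s g : ℕ) : ℕ × ℕ := if (s / g) % 2 = 0 then (2 * g, g) else (g, 0)

/-- Search tree: `L` is a list of known congruences for the current term, `x, y` the last two
differences. -/
def chk : ℕ → List (ℕ × ℕ) → ℕ → ℕ → Bool
  | 0, _, _, _ => false
  | (k + 1), L, x, y =>
    (List.range (x + y)).all fun i =>
      !((x + y) % (i + 1) == 0) || !(L.all (okFact (x + y) (i + 1))) ||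
        (Nat.ble (i + 1) 89 && ((y == 1 && (i + 1) == 1) ||
          chk k ((newFact (x + y) (i + 1) :: L).map
            (fun f => (f.1, (f.2 + (i + 1)) % f.1))) y (i + 1)))

lemma chk_start : chk 36 [] 1 1 = true := by
  decide +kernel

/-- State: the last two differences before index `n + 2` are `x, y`. -/
def St (n x y : ℕ) : Prop := a (n + 1) = a n + x ∧ a (n + 2) = a (n + 1) + y

lemma a_pos (n : ℕ) : 0 < a n := by
  induction n using Nat.strong_induction_on with
  | _ n ih =>
    match n with
    | 0 => simp [a]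
    | 1 => simp [a]
    | 2 => simp [a]
    | (m + 3) =>
      have := ih (m + 2) (by omega)
      rw [a]
      omega

lemma step (n x y : ℕ) (h : St n x y) :
    a (n + 3) = a (n + 2) + Nat.gcd (a (n + 2)) (x + y) := by
  obtain ⟨h1, h2⟩ := h
  have h3 : a (n + 2) = a n + (x + y) := by omega
  rw [a]
  congr 1
  rw [h3, Nat.gcd_comm (a n + (x + y)) (x + y), Nat.gcd_comm (a n + (x + y)) (a n)]
  simp [Nat.gcd_comm]

lemma newFact_sound (A s g : ℕ) (hs : 0 < s) (hg : Nat.gcd A s = g) :
    A % (newFact s g).1 = (newFact s g).2 % (newFact s g).1 := by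
  have hgpos : 0 < g := by rw [← hg]; exact Nat.gcd_pos_of_pos_right _ hs
  have hgA : g ∣ A := by rw [← hg]; exact Nat.gcd_dvd_left _ _
  have hgs : g ∣ s := by rw [← hg]; exact Nat.gcd_dvd_right _ _
  unfold newFact
  split_ifs with hpar
  · obtain ⟨q, hq⟩ := hgA
    obtain ⟨t, ht⟩ := hgs
    have htt : s / g = t := by rw [ht]; exact Nat.mul_div_cancel_left t hgpos
    rw [htt] at hpar
    have hqodd : q % 2 = 1 := by
      by_contra hcon
      have hq0 : q % 2 = 0 := by omega
      have hd1 : 2 * g ∣ A := by
        rw [hq]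
        obtain ⟨u, hu⟩ := Nat.dvd_of_mod_eq_zero hq0
        exact ⟨u, by rw [hu]; ring⟩
      have hd2 : 2 * g ∣ s := by
        rw [ht]
        obtain ⟨u, hu⟩ := Nat.dvd_of_mod_eq_zero hpar
        exact ⟨u, by rw [hu]; ring⟩
      have hd : 2 * g ∣ g := by
        conv_rhs => rw [← hg]
        exact Nat.dvd_gcd hd1 hd2
      have := Nat.le_of_dvd hgpos hd
      omega
    have hq2 : q = 2 * (q / 2) + 1 := by omega
    show A % (2 * g) = g % (2 * g)
    have : A = g + (2 * g) * (q / 2) := by
      rw [hq]
      conv_lhs => rw [hq2]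
      ring
    rw [this, Nat.add_mul_mod_self_left]
  · show A % g = 0 % g
    rw [Nat.zero_mod]
    exact Nat.mod_eq_zero_of_dvd hgA

lemma okFact_sound (A s g : ℕ) (hg : Nat.gcd A s = g) (f : ℕ × ℕ) (hf : A % f.1 = f.2 % f.1) :
    okFact s g f = true := by
  unfold okFact
  have hd : Nat.gcd f.1 s ∣ f.1 := Nat.gcd_dvd_left _ _
  have h1 : A % (Nat.gcd f.1 s) = f.2 % (Nat.gcd f.1 s) := by
    have : A ≡ f.2 [MOD f.1] := hf
    exact this.of_dvd hd
  have h2 : Nat.gcd A (Nat.gcd f.1 s) = Nat.gcd f.2 (Nat.gcd f.1 s) := by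
    rw [Nat.gcd_comm A, Nat.gcd_comm f.2, Nat.gcd_rec, Nat.gcd_rec (Nat.gcd f.1 s) f.2, h1]
  have h3 : Nat.gcd g (Nat.gcd f.1 s) = Nat.gcd A (Nat.gcd f.1 s) := by
    rw [← hg, Nat.gcd_assoc]
    congr 1
    exact Nat.gcd_eq_right (Nat.gcd_dvd_right _ _)
  rw [beq_iff_eq, ← h2, h3]

/-- Soundness of the search tree. -/
lemma chk_sound : ∀ (k : ℕ) (L : List (ℕ × ℕ)) (x y : ℕ), chk k L x y = true →
    ∀ n : ℕ, 0 < y → St n x y → (∀ f ∈ L, a (n + 2) % f.1 = f.2 % f.1) →
    ∃ j : ℕ, 1 ≤ j ∧ St (n + j) 1 1 ∧ ∀ i : ℕ, i < j → a (n + 2 + i + 1) ≤ a (n + 2 + i) + 89 := by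
  intro k
  induction k with
  | zero => intro L x y h; simp [chk] at h
  | succ k ih =>
    intro L x y h n hy hst hL
    have hstep := step n x y hst
    set g := Nat.gcd (a (n + 2)) (x + y) with hg
    have hs : 0 < x + y := by omega
    have hgpos : 0 < g := Nat.gcd_pos_of_pos_right _ hs
    have hgle : g ≤ x + y := Nat.le_of_dvd hs (Nat.gcd_dvd_right _ _)
    have hgdvd : g ∣ x + y := Nat.gcd_dvd_right _ _
    rw [chk, List.all_eq_true] at h
    have h1 := h (g - 1) (by rw [List.mem_range]; omega)
    have hg1 : g - 1 + 1 = g := by omega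
    simp only [hg1] at h1
    have hmod : (x + y) % g = 0 := Nat.mod_eq_zero_of_dvd hgdvd
    have hall : L.all (okFact (x + y) g) = true := by
      rw [List.all_eq_true]
      intro f hf
      exact okFact_sound _ _ _ hg.symm f (hL f hf)
    rw [hmod, hall] at h1
    simp only [beq_self_eq_true, Bool.not_true, Bool.false_or, Bool.and_eq_true,
      Bool.or_eq_true, beq_iff_eq, Nat.ble_eq] at h1
    obtain ⟨hle, h2⟩ := h1
    have hst' : St (n + 1) y g := ⟨hst.2, by
      have : a (n + 1 + 2) = a (n + 3) := rfl
      rw [this, hstep]⟩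
    rcases h2 with ⟨hy1, hg1'⟩ | h2
    · refine ⟨1, le_refl _, ?_, ?_⟩
      · rw [hy1, hg1'] at hst'
        exact hst'
      · intro i hi
        have : i = 0 := by omega
        subst this
        show a (n + 3) ≤ a (n + 2) + 89
        omega
    · obtain ⟨j, hj1, hj2, hj3⟩ := ih _ y g h2 (n + 1) hgpos hst' (by
        intro f hf
        rw [List.mem_map] at hf
        obtain ⟨f0, hf0, rfl⟩ := hf
        have hf0' : a (n + 2) % f0.1 = f0.2 % f0.1 := by
          rw [List.mem_cons] at hf0
          rcases hf0 with rfl | hf0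
          · exact newFact_sound _ _ _ hs hg.symm
          · exact hL f0 hf0
        show a (n + 3) % f0.1 = ((f0.2 + g) % f0.1) % f0.1
        rw [Nat.mod_mod, hstep, Nat.add_mod, hf0', ← Nat.add_mod])
      refine ⟨j + 1, by omega, ?_, ?_⟩
      · have e : n + 1 + j = n + (j + 1) := by ring
        rw [e] at hj2
        exact hj2
      · intro i hi
        rcases Nat.eq_zero_or_pos i with rfl | hi0
        · show a (n + 3) ≤ a (n + 2) + 89
          omega
        · obtain ⟨i', rfl⟩ : ∃ i', i = i' + 1 := ⟨i - 1, by omega⟩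
          have := hj3 i' (by omega)
          have e1 : n + 1 + 2 + i' = n + 2 + (i' + 1) := by ring
          rw [e1] at this
          exact this

lemma bounded_from (N : ℕ) : ∀ n : ℕ, St n 1 1 → ∀ i ≤ N, a (n + i + 1) ≤ a (n + i) + 89 := by
  induction N using Nat.strong_induction_on with
  | _ N ih =>
    intro n hn i hi
    obtain ⟨j, hj1, hj2, hj3⟩ := chk_sound 36 [] 1 1 chk_start n one_pos hn (by simp)
    rcases Nat.lt_or_ge i j with hij | hij
    · rcases Nat.lt_or_ge i 2 with h2 | h2
      · interval_cases i
        · have := hn.1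
          show a (n + 1) ≤ a n + 89
          omega
        · have := hn.2
          show a (n + 2) ≤ a (n + 1) + 89
          omega
      · have := hj3 (i - 2) (by omega)
        have e : n + 2 + (i - 2) = n + i := by omega
        rw [e] at this
        exact this
    · have := ih (N - j) (by omega) (n + j) hj2 (i - j) (by omega)
      have e : n + j + (i - j) = n + i := by omega
      rw [e] at this
      exact this

/-- All consecutive differences are at most `89`. -/
theorem differences_le (n : ℕ) : a (n + 1) ≤ a n + 89 := by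
  have hst : St 2 1 1 := by
    constructor <;> decide
  rcases Nat.lt_or_ge n 2 with h | h
  · interval_cases n
    · decide
    · decide
  · have := bounded_from (n - 2) 2 hst (n - 2) (le_refl _)
    have e : 2 + (n - 2) = n := by omega
    rw [e] at this
    exact this

/-- **Answer to Q1: no.**  All consecutive differences of the sequence are at most `89`, so that
the positive integer `90` (and every larger integer) is not a consecutive difference. -/
theorem result :
    (¬ ∀ d : ℕ, 1 ≤ d → ∃ n : ℕ, a (n + 1) = a n + d) ∧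
    (∀ n : ℕ, a n ≤ a (n + 1) ∧ a (n + 1) ≤ a n + 89) := by
  refine ⟨?_, ?_⟩
  · intro h
    obtain ⟨n, hn⟩ := h 90 (by norm_num)
    have := differences_le n
    omega
  · intro n
    refine ⟨?_, differences_le n⟩
    match n with
    | 0 => decide
    | 1 => decide
    | (m + 2) =>
      show a (m + 2) ≤ a (m + 3)
      rw [a]
      exact Nat.le_add_right _ _

end Pool.Agent.Results.MP_f6aa92_nt.BoundedDifferences
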